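import Mathlib

namespace Pool.Agent.Results.MP_1cd45c_al.TriangleCount

open Polynomial Finset

/-- The polynomials `A_n^r`: `A_0^0 = 1`, `A_0^r = 0` for `r > 0`, `A_{n+1}^0 = A_n^0` and
`A_{n+1}^{r+1} = q^{r+1} A_n^{r+1} + (q^{n-r} - q^r) A_n^r` (here `A_n^r = 0` for `r > n`). -/
noncomputable def Ar : ℕ → ℕ → ℤ[X]
  | 0, 0 => 1
  | 0, _ + 1 => 0
  | n + 1, 0 => Ar n 0
  | n + 1, r + 1 => X ^ (r + 1) * Ar n (r + 1) + (X ^ (n - r) - X ^ r) * Ar n r

/-- `A_n = ∑_r A_n^r`. -/
noncomputable def A (n : ℕ) : ℤ[X] := ∑ r ∈ range (n + 1), Ar n r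

/-- The `q`-triangle of Laurent polynomials `b_{k,l}`, with `T m = q^m`. -/
noncomputable def b : ℕ → ℕ → LaurentPolynomial ℤ
  | 0, 0 => 1
  | 0, l + 1 => LaurentPolynomial.T ((l + 1 : ℕ) : ℤ) * b l 0
  | k + 1, l => LaurentPolynomial.T (-1) * b k (l + 1) +
      (LaurentPolynomial.T ((l + 1 : ℕ) : ℤ) - LaurentPolynomial.T (l : ℤ)) * b l k
termination_by k l => (k + l, k)
decreasing_by
  · exact Prod.Lex.left _ _ (by omega)
  · rw [show k + (l + 1) = k + 1 + l by omega]
    exact Prod.Lex.right _ (by omega)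
  · exact Prod.Lex.left _ _ (by omega)

noncomputable def E : ℕ → ℕ → ℤ[X]
  | 0, 0 => 1
  | 0, l + 1 => E l 0
  | k + 1, l => E k (l + 1) + (X ^ (k + 1) - X ^ k) * E l k
termination_by k l => (k + l, k)
decreasing_by
  · exact Prod.Lex.left _ _ (by omega)
  · rw [show k + (l + 1) = k + 1 + l by omega]
    exact Prod.Lex.right _ (by omega)
  · exact Prod.Lex.left _ _ (by omega)

lemma b_eq (k l : ℕ) : b k l = LaurentPolynomial.T (l : ℤ) * toLaurent (E k l) := by
  induction k, l using E.induct with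
  | case1 => simp [b, E]
  | case2 l ih => rw [b, E, ih]; simp
  | case3 k l ih1 ih2 =>
    rw [b, E, ih1, ih2]
    simp only [map_add, map_mul, map_sub, toLaurent_X_pow, Nat.cast_add, Nat.cast_one,
      LaurentPolynomial.T_add]
    have : (LaurentPolynomial.T (-1) * LaurentPolynomial.T 1 : LaurentPolynomial ℤ) = 1 := by
      rw [← LaurentPolynomial.T_add]
      simp
    linear_combination (LaurentPolynomial.T l * toLaurent (E k (l + 1))) * this

section count

open Matrix Classical

variable {F : Type} [Field F] [Fintype F]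

noncomputable def Sq (F : Type) [Field F] [Fintype F] {n : ℕ} (S : Fin n → Fin n → Prop) :
    Finset (Matrix (Fin n) (Fin n) F) :=
  univ.filter fun Y => (∀ i j, ¬ S i j → Y i j = 0) ∧ Y * Y = 0

lemma mem_Sq {n : ℕ} {S : Fin n → Fin n → Prop} {Y : Matrix (Fin n) (Fin n) F} :
    Y ∈ Sq F S ↔ (∀ i j, ¬ S i j → Y i j = 0) ∧ Y * Y = 0 := by simp [Sq]

abbrev P (N k : ℕ) : Fin (N + 1) → Fin (N + 1) → Prop :=
  fun i j => i < j ∧ (j = Fin.last N → i.val < k)

noncomputable def V (F : Type) [Field F] [Fintype F] (N k : ℕ) : Finset (Fin N → F) :=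
  univ.filter fun c => ∀ i : Fin N, k ≤ i.val → c i = 0

lemma mem_V {N k : ℕ} {c : Fin N → F} : c ∈ V F N k ↔ ∀ i : Fin N, k ≤ i.val → c i = 0 := by
  simp [V]

lemma card_V {N k : ℕ} (h : k ≤ N) : (V F N k).card = Fintype.card F ^ k := by
  have : V F N k = Fintype.piFinset fun i : Fin N => if i.val < k then univ else {0} := by
    ext c
    rw [mem_V, Fintype.mem_piFinset]
    refine forall_congr' fun i => ?_
    split_ifs with hi
    · simp [hi]
    · simp [not_lt.1 hi]
  rw [this, Fintype.card_piFinset]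
  simp only [apply_ite Finset.card, card_univ, card_singleton]
  rw [prod_ite, prod_const, prod_const_one, mul_one, Fin.card_filter_val_lt, min_eq_right h]

def ext {N : ℕ} (Y : Matrix (Fin N) (Fin N) F) (c : Fin N → F) :
    Matrix (Fin (N + 1)) (Fin (N + 1)) F :=
  Matrix.of fun i j => Fin.lastCases 0 (fun i' => Fin.lastCases (c i') (fun j' => Y i' j') j) i

omit [Fintype F] in
@[simp] lemma ext_last {N : ℕ} (Y : Matrix (Fin N) (Fin N) F) (c : Fin N → F) (j) :
    ext Y c (Fin.last N) j = 0 := by simp [ext]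

omit [Fintype F] in
@[simp] lemma ext_cl {N : ℕ} (Y : Matrix (Fin N) (Fin N) F) (c : Fin N → F) (i : Fin N) :
    ext Y c i.castSucc (Fin.last N) = c i := by simp [ext]

omit [Fintype F] in
@[simp] lemma ext_cc {N : ℕ} (Y : Matrix (Fin N) (Fin N) F) (c : Fin N → F) (i j : Fin N) :
    ext Y c i.castSucc j.castSucc = Y i j := by simp [ext]

omit [Fintype F] in
lemma ext_sq {N : ℕ} (Y : Matrix (Fin N) (Fin N) F) (c : Fin N → F) :
    ext Y c * ext Y c = 0 ↔ Y * Y = 0 ∧ Y *ᵥ c = 0 := by
  have : ext Y c * ext Y c = ext (Y * Y) (Y *ᵥ c) := by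
    ext i j
    refine Fin.lastCases ?_ (fun i => ?_) i
    · simp [Matrix.mul_apply]
    · refine Fin.lastCases ?_ (fun j => ?_) j <;>
        simp [Matrix.mul_apply, Fin.sum_univ_castSucc, Matrix.mulVec, dotProduct]
  rw [this]
  constructor
  · intro h
    constructor
    · ext i j
      simpa using congrFun (congrFun h i.castSucc) j.castSucc
    · ext i
      simpa using congrFun (congrFun h i.castSucc) (Fin.last N)
  · rintro ⟨h1, h2⟩
    rw [h1, h2]
    ext i j
    refine Fin.lastCases ?_ (fun i => ?_) i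
    · simp
    · refine Fin.lastCases ?_ (fun j => ?_) j <;> simp

lemma sum_ext (N k : ℕ) (f : Matrix (Fin (N + 1)) (Fin (N + 1)) F → ℤ) :
    ∑ X ∈ Sq F (P N k), f X = ∑ Y ∈ Sq F (fun i j : Fin N => i < j), ∑ c ∈ V F N k,
      if Y *ᵥ c = 0 then f (ext Y c) else 0 := by
  rw [← sum_product', ← sum_filter]
  symm
  refine sum_nbij' (fun p => ext p.1 p.2)
    (fun X => (Matrix.of fun i j => X i.castSucc j.castSucc, fun i => X i.castSucc (Fin.last N)))
    ?_ ?_ ?_ ?_ ?_
  · rintro ⟨Y, c⟩ h
    simp only [mem_filter, mem_product, mem_Sq, mem_V] at h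
    obtain ⟨⟨⟨h1, h2⟩, h3⟩, h4⟩ := h
    refine mem_Sq.2 ⟨fun i j => ?_, (ext_sq Y c).2 ⟨h2, h4⟩⟩
    refine Fin.lastCases ?_ (fun i => ?_) i
    · simp
    · refine Fin.lastCases ?_ (fun j => ?_) j
      · intro h
        rw [ext_cl]
        apply h3
        by_contra hc
        exact h ⟨Fin.castSucc_lt_last i, fun _ => by simpa using hc⟩
      · intro h
        rw [ext_cc]
        apply h1
        intro hc
        exact h ⟨by simpa using hc, fun h' => absurd h' (Fin.castSucc_lt_last j).ne⟩
  · intro X hX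
    obtain ⟨h1, h2⟩ := mem_Sq.1 hX
    have hX' : X = ext (Matrix.of fun i j => X i.castSucc j.castSucc)
        (fun i => X i.castSucc (Fin.last N)) := by
      ext i j
      refine Fin.lastCases ?_ (fun i => ?_) i
      · rw [ext_last]
        exact h1 _ _ fun h => absurd h.1 (not_lt.2 (Fin.le_last _))
      · refine Fin.lastCases ?_ (fun j => ?_) j <;> simp
    rw [hX', ext_sq] at h2
    simp only [mem_filter, mem_product, mem_Sq, mem_V]
    refine ⟨⟨⟨fun i j h => h1 _ _ fun h' => h (by simpa using h'.1), h2.1⟩, fun i hi => h1 _ _ ?_⟩,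
      h2.2⟩
    intro h
    have := h.2 rfl
    simp at this
    omega
  · rintro ⟨Y, c⟩ _
    ext <;> simp
  · intro X hX
    obtain ⟨h1, h2⟩ := mem_Sq.1 hX
    ext i j
    refine Fin.lastCases ?_ (fun i => ?_) i
    · rw [ext_last]
      exact (h1 _ _ fun h => absurd h.1 (not_lt.2 (Fin.le_last _))).symm
    · refine Fin.lastCases ?_ (fun j => ?_) j <;> simp
  · intro _ _
    rfl

lemma Sq_full (N : ℕ) : Sq F (P N N) = Sq F (fun i j : Fin (N + 1) => i < j) := by
  congr 1
  funext i j
  refine propext ⟨fun h => h.1, fun h => ⟨h, fun h' => ?_⟩⟩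
  subst h'
  exact h

lemma conj_mem {N : ℕ} {g h Y : Matrix (Fin N) (Fin N) F} (hg : ∀ i j, j < i → g i j = 0)
    (hh : ∀ i j, j < i → h i j = 0) (hgh : g * h = 1) (hY : Y ∈ Sq F (fun i j : Fin N => i < j)) :
    h * Y * g ∈ Sq F (fun i j : Fin N => i < j) := by
  obtain ⟨h1, h2⟩ := mem_Sq.1 hY
  refine mem_Sq.2 ⟨fun i j hij => ?_, ?_⟩
  · rw [Matrix.mul_apply]
    refine sum_eq_zero fun t _ => ?_
    by_cases ht : j < t
    · rw [hg _ _ ht, mul_zero]
    · rw [Matrix.mul_apply, sum_eq_zero, zero_mul]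
      intro s _
      by_cases hs : s < i
      · rw [hh _ _ hs, zero_mul]
      · rw [h1 s t (by omega), mul_zero]
  · calc h * Y * g * (h * Y * g) = h * Y * (g * h) * Y * g := by simp only [Matrix.mul_assoc]
      _ = h * (Y * Y) * g := by rw [hgh, Matrix.mul_one]; simp only [Matrix.mul_assoc]
      _ = 0 := by rw [h2]; simp

lemma card_ker {N : ℕ} (k : Fin N) (c : Fin N → F) (hc : ∀ i, k < i → c i = 0) (hk : c k ≠ 0) :
    ((Sq F (fun i j : Fin N => i < j)).filter fun Y => Y *ᵥ c = 0).card =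
      (Sq F (fun i j : Fin N => i < j ∧ j ≠ k)).card := by
  let g : Matrix (Fin N) (Fin N) F := Matrix.updateCol 1 k c
  let h : Matrix (Fin N) (Fin N) F :=
    Matrix.updateCol 1 k fun i => if i = k then (c k)⁻¹ else -(c i * (c k)⁻¹)
  have hg : ∀ i j, j < i → g i j = 0 := by
    intro i j hij
    by_cases hj : j = k
    · subst hj
      simp [g, hc i hij]
    · simp [g, Matrix.updateCol_ne hj, Matrix.one_apply_ne hij.ne']
  have hh : ∀ i j, j < i → h i j = 0 := by
    intro i j hij
    by_cases hj : j = k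
    · subst hj
      simp [h, hc i hij, hij.ne']
    · simp [h, Matrix.updateCol_ne hj, Matrix.one_apply_ne hij.ne']
  have hhg : h * g = 1 := by
    ext i j
    rw [Matrix.mul_apply]
    by_cases hj : j = k
    · subst hj
      simp only [g, Matrix.updateCol_self]
      rw [← Finset.add_sum_erase _ _ (mem_univ j)]
      rw [sum_congr rfl (g := fun t => (1 : Matrix (Fin N) (Fin N) F) i t * c t)
        fun t ht => by simp only [h, Matrix.updateCol_ne (ne_of_mem_erase ht)]]
      simp only [h, Matrix.updateCol_self, Matrix.one_apply, ite_mul, one_mul, zero_mul,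
        sum_ite_eq, mem_erase, mem_univ, and_true]
      by_cases hi : i = j
      · simp [hi, hk]
      · simp [hi, hk]
    · simp only [g, Matrix.updateCol_ne hj, Matrix.one_apply, mul_ite, mul_one, mul_zero,
        sum_ite_eq', mem_univ, if_true, h]
  have hgh : g * h = 1 := mul_eq_one_comm.1 hhg
  have hgk : g *ᵥ Pi.single k 1 = c := by
    ext i
    simp [g]
  have hcol : ∀ Z : Matrix (Fin N) (Fin N) F, Z ∈ Sq F (fun i j : Fin N => i < j ∧ j ≠ k) ↔
      Z ∈ Sq F (fun i j : Fin N => i < j) ∧ Z *ᵥ Pi.single k 1 = 0 := by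
    intro Z
    simp only [mem_Sq]
    constructor
    · rintro ⟨h1, h2⟩
      refine ⟨⟨fun i j hij => h1 i j fun h => hij h.1, h2⟩, ?_⟩
      ext i
      simpa using h1 i k fun h => h.2 rfl
    · rintro ⟨⟨h1, h2⟩, h3⟩
      refine ⟨fun i j hij => ?_, h2⟩
      by_cases hj : j = k
      · subst hj
        simpa using congrFun h3 i
      · exact h1 i j fun h => hij ⟨h, hj⟩
  refine card_nbij' (fun Y => h * Y * g) (fun Z => g * Z * h) ?_ ?_ ?_ ?_
  · intro Y hY
    obtain ⟨h1, h2⟩ := mem_filter.1 hY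
    refine (hcol _).2 ⟨conj_mem hg hh hgh h1, ?_⟩
    rw [← Matrix.mulVec_mulVec, hgk, ← Matrix.mulVec_mulVec, h2, Matrix.mulVec_zero]
  · intro Z hZ
    obtain ⟨h1, h2⟩ := (hcol _).1 hZ
    refine mem_filter.2 ⟨conj_mem hh hg hhg h1, ?_⟩
    rw [← hgk, Matrix.mulVec_mulVec, Matrix.mul_assoc, hhg, Matrix.mul_one,
      ← Matrix.mulVec_mulVec, h2, Matrix.mulVec_zero]
  · intro Y _
    calc g * (h * Y * g) * h = (g * h) * Y * (g * h) := by simp only [Matrix.mul_assoc]
      _ = Y := by rw [hgh]; simp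
  · intro Y _
    calc h * (g * Y * h) * g = (h * g) * Y * (h * g) := by simp only [Matrix.mul_assoc]
      _ = Y := by rw [hhg]; simp

lemma card_flip {n : ℕ} (σ : Equiv.Perm (Fin n)) (S S' : Fin n → Fin n → Prop)
    (h : ∀ a b, S (σ b) (σ a) ↔ S' a b) : (Sq F S).card = (Sq F S').card := by
  refine card_nbij' (fun Y => (Y.submatrix σ σ)ᵀ) (fun Z => (Z.submatrix σ.symm σ.symm)ᵀ)
    ?_ ?_ ?_ ?_
  · intro Y hY
    obtain ⟨h1, h2⟩ := mem_Sq.1 hY
    refine mem_Sq.2 ⟨fun i j hij => h1 _ _ fun hc => hij ((h _ _).1 hc), ?_⟩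
    rw [← Matrix.transpose_mul, Matrix.submatrix_mul_equiv, h2]
    rfl
  · intro Y hY
    obtain ⟨h1, h2⟩ := mem_Sq.1 hY
    refine mem_Sq.2 ⟨fun i j hij => h1 _ _ fun hc => hij (by simpa using (h _ _).2 hc), ?_⟩
    rw [← Matrix.transpose_mul, Matrix.submatrix_mul_equiv, h2]
    rfl
  · intro Y _
    ext i j
    simp
  · intro Y _
    ext i j
    simp

lemma card_col (k l : ℕ) (k0 : Fin (l + k + 1)) (hk : k0.val = k) :
    (Sq F (fun i j : Fin (l + k + 1) => i < j ∧ j ≠ k0)).card = (Sq F (P (l + k) l)).card := by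
  let s : Fin (l + k + 1) → Fin (l + k + 1) := fun a =>
    ⟨if a.val < l then l + k - a.val else if a.val < l + k then l + k - 1 - a.val else k, by
      split_ifs <;> omega⟩
  have hs : Function.Injective s := by
    intro a b h
    have h' := congrArg Fin.val h
    have := a.2
    have := b.2
    apply Fin.ext
    simp only [s] at h'
    split_ifs at h' <;> omega
  refine card_flip (Equiv.ofBijective s (Finite.injective_iff_bijective.1 hs)) _ _ fun a b => ?_
  have := a.2
  have := b.2
  simp only [P, Equiv.ofBijective_apply, s, Fin.lt_def, Ne, Fin.ext_iff, hk, Fin.val_last]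
  split_ifs <;> omega

lemma count_E (k l : ℕ) : ∀ N, N = k + l →
    ((Sq F (P N k)).card : ℤ) = (E k l).eval (Fintype.card F : ℤ) := by
  induction k, l using E.induct with
  | case1 =>
    rintro _ rfl
    rw [E, eval_one, Nat.cast_eq_one, card_eq_one]
    refine ⟨0, eq_singleton_iff_unique_mem.2 ⟨mem_Sq.2 ⟨fun _ _ _ => rfl, by simp⟩, fun Y hY => ?_⟩⟩
    ext i j
    exact (mem_Sq.1 hY).1 i j fun h => by have := h.1; omega
  | case2 l ih =>
    intro N hN
    obtain rfl : N = l + 1 := by omega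
    rw [E, ← ih l rfl, Sq_full, card_eq_sum_ones, card_eq_sum_ones]
    push_cast
    rw [sum_ext]
    refine sum_congr rfl fun Y _ => ?_
    have : V F (l + 1) 0 = {0} := by
      ext c
      simp [mem_V, funext_iff]
    rw [this, sum_singleton, if_pos (Matrix.mulVec_zero _)]
  | case3 k l ih1 ih2 =>
    intro N hN
    obtain rfl : N = l + k + 1 := by omega
    rw [E, eval_add, eval_mul, ← ih1 (l + k + 1) (by omega), ← ih2 _ rfl, card_eq_sum_ones,
      card_eq_sum_ones (Sq F (P (l + k + 1) k))]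
    push_cast
    rw [sum_ext, sum_ext, sum_comm, sum_comm (s := Sq F _)]
    have hsub : V F (l + k + 1) k ⊆ V F (l + k + 1) (k + 1) := fun c hc =>
      mem_V.2 fun i hi => mem_V.1 hc i (by omega)
    rw [← sum_sdiff hsub, add_comm]
    congr 1
    rw [sum_congr rfl (g := fun _ => ((Sq F (P (l + k) l)).card : ℤ)), sum_const,
      card_sdiff_of_subset hsub, card_V (by omega), card_V (by omega), nsmul_eq_mul,
      Nat.cast_sub (Nat.pow_le_pow_right Fintype.card_pos (by omega))]
    · simp
    · intro c hc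
      obtain ⟨h1, h2⟩ := mem_sdiff.1 hc
      rw [sum_boole, card_ker ⟨k, by omega⟩ c (fun i hi => mem_V.1 h1 i hi),
        card_col k l _ rfl]
      intro h0
      refine h2 (mem_V.2 fun i hi => ?_)
      rcases hi.eq_or_lt with h | h
      · rw [← h0]
        congr 1
        exact Fin.ext h.symm
      · exact mem_V.1 h1 i h

omit [Fintype F] in
lemma rank_ext {N : ℕ} (Y : Matrix (Fin N) (Fin N) F) (c : Fin N → F) :
    (ext Y c).rank = if c ∈ LinearMap.range Y.mulVecLin then Y.rank else Y.rank + 1 := by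
  let emb : (Fin N → F) →ₗ[F] (Fin (N + 1) → F) :=
    LinearMap.pi fun i => Fin.lastCases 0 (fun i' => LinearMap.proj i') i
  have he1 : ∀ v, emb v (Fin.last N) = 0 := fun v => by simp [emb]
  have he2 : ∀ v (i : Fin N), emb v i.castSucc = v i := fun v i => by simp [emb]
  have hinj : Function.Injective emb := fun v w h => funext fun i => by
    rw [← he2 v, ← he2 w, h]
  have hmul : ∀ w : Fin (N + 1) → F, (ext Y c) *ᵥ w =
      emb (Y *ᵥ (fun i => w i.castSucc) + w (Fin.last N) • c) := by
    intro w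
    ext i
    refine Fin.lastCases ?_ (fun i => ?_) i
    · simp [he1, Matrix.mulVec, dotProduct]
    · simp [he2, Matrix.mulVec, dotProduct, Fin.sum_univ_castSucc, mul_comm]
  have hr : LinearMap.range (ext Y c).mulVecLin =
      (LinearMap.range Y.mulVecLin ⊔ Submodule.span F {c}).map emb := by
    ext x
    constructor
    · rintro ⟨w, rfl⟩
      exact ⟨_, Submodule.add_mem_sup ⟨_, rfl⟩
        (Submodule.smul_mem _ _ (Submodule.subset_span rfl)), (hmul w).symm⟩
    · rintro ⟨y, hy, rfl⟩
      obtain ⟨_, ⟨u, rfl⟩, z, hz, rfl⟩ := Submodule.mem_sup.1 hy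
      obtain ⟨a, rfl⟩ := Submodule.mem_span_singleton.1 hz
      refine ⟨fun i => Fin.lastCases a u i, ?_⟩
      rw [Matrix.mulVecLin_apply, hmul]
      simp
  rw [Matrix.rank, hr, ← (Submodule.equivMapOfInjective emb hinj _).finrank_eq]
  split_ifs with h
  · rw [sup_eq_left.2 ((Submodule.span_singleton_le_iff_mem _ _).2 h)]
    rfl
  · exact Submodule.finrank_sup_span_singleton h

lemma card_sub {N : ℕ} (W : Submodule F (Fin N → F)) :
    (univ.filter fun c => c ∈ W).card = Fintype.card F ^ Module.finrank F W := by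
  rw [← Module.card_eq_pow_finrank, Fintype.card_subtype]

lemma count_A (n : ℕ) : ∀ r, ∑ Y ∈ Sq F (fun i j : Fin n => i < j),
    (if Y.rank = r then (1 : ℤ) else 0) = (Ar n r).eval (Fintype.card F : ℤ) := by
  induction n with
  | zero =>
    intro r
    have : Sq F (fun i j : Fin 0 => i < j) = {0} :=
      eq_singleton_iff_unique_mem.2 ⟨mem_Sq.2 ⟨fun _ _ _ => rfl, by simp⟩,
        fun Y _ => Subsingleton.elim _ _⟩
    rw [this, sum_singleton, Matrix.rank_zero]
    cases r <;> simp [Ar]
  | succ n ih =>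
    intro r
    have key : ∀ Y ∈ Sq F (fun i j : Fin n => i < j), ∑ c ∈ V F n n,
        (if Y *ᵥ c = 0 then (if (ext Y c).rank = r then (1 : ℤ) else 0) else 0) =
        (Fintype.card F : ℤ) ^ Y.rank * (if Y.rank = r then 1 else 0) +
          ((Fintype.card F : ℤ) ^ (n - Y.rank) - (Fintype.card F : ℤ) ^ Y.rank) *
            (if Y.rank + 1 = r then 1 else 0) := by
      intro Y hY
      have hV : V F n n = univ := eq_univ_of_forall fun c => mem_V.2 fun i hi => by omega
      have hsub : (univ.filter fun c => c ∈ LinearMap.range Y.mulVecLin) ⊆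
          univ.filter fun c => c ∈ LinearMap.ker Y.mulVecLin := by
        intro c hc
        obtain ⟨u, rfl⟩ := (mem_filter.1 hc).2
        simp [Matrix.mulVec_mulVec, (mem_Sq.1 hY).2]
      have hker : Module.finrank F (LinearMap.ker Y.mulVecLin) = n - Y.rank := by
        have := LinearMap.finrank_range_add_finrank_ker Y.mulVecLin
        rw [Module.finrank_fin_fun] at this
        rw [Matrix.rank]
        omega
      have hle := card_le_card hsub
      have hf : (univ.filter fun c : Fin n → F => Y *ᵥ c = 0) =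
          univ.filter fun c => c ∈ LinearMap.ker Y.mulVecLin := by
        ext c
        simp
      rw [hV, ← sum_filter, hf, ← sum_sdiff hsub, add_comm,
        sum_congr rfl (g := fun _ => if Y.rank = r then (1 : ℤ) else 0),
        sum_congr (s₁ := _ \ _) rfl (g := fun _ => if Y.rank + 1 = r then (1 : ℤ) else 0),
        sum_const, sum_const, card_sdiff_of_subset hsub, nsmul_eq_mul, nsmul_eq_mul,
        Nat.cast_sub hle, card_sub, card_sub, hker]
      · simp [Matrix.rank]
      · intro c hc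
        have h0 : c ∉ LinearMap.range Y.mulVecLin := by simpa using (mem_sdiff.1 hc).2
        rw [rank_ext, if_neg h0]
      · intro c hc
        rw [rank_ext, if_pos (mem_filter.1 hc).2]
    rw [← Sq_full, sum_ext, sum_congr rfl key]
    cases r with
    | zero =>
      rw [Ar, ← ih]
      refine sum_congr rfl fun Y _ => ?_
      split_ifs with h1 h2 h2 <;> simp_all
    | succ r =>
      rw [Ar, eval_add, eval_mul, eval_mul, ← ih, ← ih, mul_sum, mul_sum, ← sum_add_distrib]
      refine sum_congr rfl fun Y _ => ?_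
      by_cases h1 : Y.rank = r + 1
      · simp [h1]
      · by_cases h2 : Y.rank = r
        · simp [h2]
        · simp [h1, h2]

lemma count_total (n : ℕ) : ((Sq F (fun i j : Fin n => i < j)).card : ℤ) =
    (A n).eval (Fintype.card F : ℤ) := by
  rw [A, eval_finsetSum, ← sum_congr rfl fun r _ => count_A (F := F) n r, sum_comm,
    card_eq_sum_ones]
  push_cast
  refine sum_congr rfl fun Y _ => ?_
  have : Y.rank ≤ n := by simpa using Y.rank_le_width
  rw [sum_ite_eq, if_pos (mem_range.2 (by omega))]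

end count

theorem result (n : ℕ) (hn : 1 ≤ n) : toLaurent (A n) = b (n - 1) 0 := by
  obtain ⟨m, rfl⟩ : ∃ m, n = m + 1 := ⟨n - 1, by omega⟩
  rw [Nat.add_sub_cancel, b_eq]
  have : A (m + 1) = E m 0 := by
    apply eq_of_infinite_eval_eq
    refine (Nat.infinite_setOfPred_prime.image (f := fun p : ℕ => (p : ℤ))
      Nat.cast_injective.injOn).mono ?_
    rintro _ ⟨p, hp, rfl⟩
    haveI : Fact p.Prime := ⟨hp⟩
    have h1 := count_total (F := ZMod p) (m + 1)
    have h2 := count_E (F := ZMod p) m 0 m rfl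
    rw [Sq_full, h1, ZMod.card] at h2
    exact h2
  simp [this]

end Pool.Agent.Results.MP_1cd45c_al.TriangleCount
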